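import Mathlib

namespace Pool.Agent.Results.MP_506dae_al.TreeLamplighter

open Set

section defs

variable {G : Type} [Group G]

/-- The Cayley graph of `G` with respect to `S`: distinct `g`, `h` are adjacent if and only if
`g⁻¹ * h` or `h⁻¹ * g` lies in `S`. -/
def cay (S : Set G) : SimpleGraph G where
  Adj g h := g ≠ h ∧ (g⁻¹ * h ∈ S ∨ h⁻¹ * g ∈ S)
  symm := ⟨fun _ _ h => ⟨h.1.symm, h.2.symm⟩⟩
  loopless := ⟨fun _ h => h.1 rfl⟩

/-- Word length: the graph distance from the identity in the Cayley graph. -/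
noncomputable def len (S : Set G) (g : G) : ℕ := (cay S).dist 1 g

/-- `g` lies in an infinite connected component of the subgraph of the Cayley graph
induced on `V`. -/
def InInfComp (S : Set G) (V : Set G) (g : G) : Prop :=
  ∃ hg : g ∈ V, (((cay S).induce V).connectedComponentMk ⟨g, hg⟩).supp.Infinite

/-- The retreat depth of `g`: the least `d` such that `g` lies in an infinite connected component
of the complement of the ball of radius `|g| - d - 1`; it is `⊤` if there is no such `d`. -/
noncomputable def rd (S : Set G) (g : G) : ℕ∞ :=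
  sInf ((fun d : ℕ => (d : ℕ∞)) '' {d : ℕ | InInfComp S {h | len S g ≤ len S h + d} g})

/-- Bounded retreat depth. -/
def BoundedRetreatDepth (S : Set G) : Prop := ∃ D : ℕ, ∀ g : G, rd S g ≤ D

/-- `G` has exactly one end: for each finite set `F` of vertices of the Cayley graph, exactly one
connected component of the complement of `F` is infinite. -/
def OneEnded (S : Set G) : Prop :=
  ∀ F : Set G, F.Finite → ∃! C : ((cay S).induce Fᶜ).ConnectedComponent, C.supp.Infinite

/-- The part of the ball `B(n+r)` which lies in an infinite connected component of the complement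
of the ball `B(n-1)`. -/
def sphere (S : Set G) (n r : ℕ) : Set G :=
  {h | len S h ≤ n + r ∧ InInfComp S {k | n ≤ len S k} h}

/-- Connection thickness: the least `r` such that `sphere S n r` is connected, `⊤` if there is
no such `r`. -/
noncomputable def th (S : Set G) (n : ℕ) : ℕ∞ :=
  sInf ((fun r : ℕ => (r : ℕ∞)) '' {r : ℕ | ((cay S).induce (sphere S n r)).Connected})

/-- Connected spheres: one end and bounded connection thickness. -/
def ConnectedSpheres (S : Set G) : Prop := OneEnded S ∧ ∃ R : ℕ, ∀ n : ℕ, th S n ≤ R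

end defs

section general

theorem sInf_image_le (s : Set ℕ) (D : ℕ) :
    sInf ((fun d : ℕ => (d : ℕ∞)) '' s) ≤ (D : ℕ∞) ↔ ∃ d ∈ s, d ≤ D := by
  constructor
  · intro h
    have hlt : sInf ((fun d : ℕ => (d : ℕ∞)) '' s) < ((D + 1 : ℕ) : ℕ∞) :=
      lt_of_le_of_lt h (by exact_mod_cast Nat.lt_succ_self D)
    obtain ⟨_, ⟨d, hd, rfl⟩, hlt'⟩ := sInf_lt_iff.1 hlt
    have hlt2 : (d : ℕ∞) < ((D + 1 : ℕ) : ℕ∞) := hlt'
    exact ⟨d, hd, Nat.lt_succ_iff.1 (by exact_mod_cast hlt2)⟩
  · rintro ⟨d, hd, hdD⟩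
    have h1 : sInf ((fun d : ℕ => (d : ℕ∞)) '' s) ≤ (d : ℕ∞) := sInf_le ⟨d, hd, rfl⟩
    exact h1.trans (by exact_mod_cast hdD)

variable {G : Type} [Group G] {S : Set G}

theorem boundedRetreatDepth_iff : BoundedRetreatDepth S ↔
    ∃ D : ℕ, ∀ g : G, ∃ d ≤ D, InInfComp S {h | len S g ≤ len S h + d} g := by
  unfold BoundedRetreatDepth rd
  simp only [sInf_image_le]
  constructor
  · rintro ⟨D, hD⟩
    exact ⟨D, fun g => by obtain ⟨d, h1, h2⟩ := hD g; exact ⟨d, h2, h1⟩⟩
  · rintro ⟨D, hD⟩
    exact ⟨D, fun g => by obtain ⟨d, h1, h2⟩ := hD g; exact ⟨d, h2, h1⟩⟩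

theorem connectedSpheres_iff : ConnectedSpheres S ↔
    OneEnded S ∧ ∃ R : ℕ, ∀ n : ℕ, ∃ r ≤ R, ((cay S).induce (sphere S n r)).Connected := by
  unfold ConnectedSpheres th
  simp only [sInf_image_le]
  constructor
  · rintro ⟨h, D, hD⟩
    exact ⟨h, D, fun g => by obtain ⟨d, h1, h2⟩ := hD g; exact ⟨d, h2, h1⟩⟩
  · rintro ⟨h, D, hD⟩
    exact ⟨h, D, fun g => by obtain ⟨d, h1, h2⟩ := hD g; exact ⟨d, h2, h1⟩⟩

/-- Connection by a path inside `V`. -/
def Conn (S : Set G) (V : Set G) (g h : G) : Prop :=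
  ∃ (hg : g ∈ V) (hh : h ∈ V), ((cay S).induce V).Reachable ⟨g, hg⟩ ⟨h, hh⟩

theorem Conn.refl {V : Set G} {g : G} (hg : g ∈ V) : Conn S V g g := ⟨hg, hg, SimpleGraph.Reachable.refl _⟩

theorem Conn.symm {V : Set G} {g h : G} (H : Conn S V g h) : Conn S V h g := by
  obtain ⟨a, b, c⟩ := H
  exact ⟨b, a, c.symm⟩

theorem Conn.trans {V : Set G} {g h k : G} (H : Conn S V g h) (H' : Conn S V h k) :
    Conn S V g k := by
  obtain ⟨a, b, c⟩ := H
  obtain ⟨a', b', c'⟩ := H'
  exact ⟨a, b', c.trans c'⟩

theorem Conn.of_adj {V : Set G} {g h : G} (H : (cay S).Adj g h) (hg : g ∈ V) (hh : h ∈ V) :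
    Conn S V g h :=
  ⟨hg, hh, SimpleGraph.Adj.reachable (by simpa using H)⟩

theorem Conn.mono {V W : Set G} (hVW : V ⊆ W) {g h : G} (H : Conn S V g h) : Conn S W g h := by
  obtain ⟨a, b, c⟩ := H
  refine ⟨hVW a, hVW b, ?_⟩
  exact c.map (SimpleGraph.induceHomOfLE (cay S) hVW).toHom

theorem Conn.left {V : Set G} {g h : G} (H : Conn S V g h) : g ∈ V := H.1
theorem Conn.right {V : Set G} {g h : G} (H : Conn S V g h) : h ∈ V := H.2.1

/-- An invariant propagates along a connection. -/
theorem Conn.induct {V : Set G} {P : G → Prop}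
    (step : ∀ a b, (cay S).Adj a b → a ∈ V → b ∈ V → P a → P b) {g h : G}
    (H : Conn S V g h) (hg : P g) : P h := by
  obtain ⟨a, b, ⟨w⟩⟩ := H
  have : ∀ (x y : V) (w : ((cay S).induce V).Walk x y), P x → P y := by
    intro x y w
    induction w with
    | nil => exact fun h => h
    | cons hadj _ ih =>
      intro hx
      exact ih (step _ _ (by simpa using hadj) (Subtype.prop _) (Subtype.prop _) hx)
  exact this _ _ w hg

theorem inInfComp_iff {V : Set G} {g : G} :
    InInfComp S V g ↔ g ∈ V ∧ {h | Conn S V g h}.Infinite := by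
  constructor
  · rintro ⟨hg, hinf⟩
    refine ⟨hg, ?_⟩
    have := hinf.image (f := Subtype.val) (Subtype.val_injective.injOn)
    refine this.mono ?_
    rintro _ ⟨⟨h, hh⟩, hm, rfl⟩
    have hm' : ((cay S).induce V).connectedComponentMk ⟨h, hh⟩ =
        ((cay S).induce V).connectedComponentMk ⟨g, hg⟩ := hm
    exact ⟨hg, hh, (SimpleGraph.ConnectedComponent.exact hm').symm⟩
  · rintro ⟨hg, hinf⟩
    refine ⟨hg, ?_⟩
    have : {h | Conn S V g h} = Subtype.val ''
        (((cay S).induce V).connectedComponentMk ⟨g, hg⟩).supp := by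
      ext h
      constructor
      · rintro ⟨h1, h2, h3⟩
        refine ⟨⟨h, h2⟩, ?_, rfl⟩
        exact SimpleGraph.ConnectedComponent.sound h3.symm
      · rintro ⟨⟨h', hh⟩, hm, rfl⟩
        have hm' : ((cay S).induce V).connectedComponentMk ⟨h', hh⟩ =
          ((cay S).induce V).connectedComponentMk ⟨g, hg⟩ := hm
        exact ⟨hg, hh, (SimpleGraph.ConnectedComponent.exact hm').symm⟩
    rw [this] at hinf
    exact Set.Infinite.of_image _ hinf

/-- Criterion for one-endedness. -/
theorem oneEnded_of (hG : (Set.univ : Set G).Infinite)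
    (H : ∀ F : Set G, F.Finite → ∃ U : Set G, U ⊆ Fᶜ ∧ Uᶜ.Finite ∧
      ∀ g ∈ U, ∀ h ∈ U, Conn S Fᶜ g h) : OneEnded S := by
  intro F hF
  obtain ⟨U, hUF, hUc, hU⟩ := H F hF
  have hUinf : U.Infinite := by
    intro hfin
    exact hG ((hfin.union hUc).subset (fun x _ => by
      by_cases hx : x ∈ U
      · exact Or.inl hx
      · exact Or.inr hx))
  obtain ⟨u, hu⟩ := hUinf.nonempty
  refine ⟨((cay S).induce Fᶜ).connectedComponentMk ⟨u, hUF hu⟩, ?_, ?_⟩
  · have : InInfComp S Fᶜ u := by
      rw [inInfComp_iff]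
      exact ⟨hUF hu, hUinf.mono (fun h hh => hU u hu h hh)⟩
    obtain ⟨_, h⟩ := this
    exact h
  · intro C hC
    -- an infinite component meets `U`
    have : ∃ x : (Fᶜ : Set G), x ∈ C.supp ∧ (x : G) ∈ U := by
      by_contra hcon
      push Not at hcon
      have h1 := hC.image (f := Subtype.val) (Subtype.val_injective.injOn)
      refine h1 (hUc.subset ?_)
      rintro _ ⟨x, hx, rfl⟩
      exact hcon x hx
    obtain ⟨x, hx, hxU⟩ := this
    have hx' : ((cay S).induce Fᶜ).connectedComponentMk x = C := hx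
    rw [← hx']
    obtain ⟨h1, h2, h3⟩ := hU x hxU u hu
    exact SimpleGraph.ConnectedComponent.sound h3

/-- A potential function which changes by at most one along edges and decreases somewhere at each
vertex other than the base vertex is the distance to the base vertex. -/
theorem len_eq_of (N : G → ℕ) (h0 : N 1 = 0) (hstep : ∀ g h, (cay S).Adj g h → N h ≤ N g + 1)
    (hdesc : ∀ g, g ≠ 1 → ∃ h, (cay S).Adj g h ∧ N h + 1 = N g) (g : G) :
    (cay S).Reachable 1 g ∧ len S g = N g := by
  have key : ∀ n : ℕ, ∀ g, N g = n → ∃ w : (cay S).Walk g 1, w.length = n := by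
    intro n
    induction n with
    | zero =>
      intro g hg
      by_cases h1 : g = 1
      · subst h1; exact ⟨SimpleGraph.Walk.nil, rfl⟩
      · obtain ⟨h, _, h3⟩ := hdesc g h1
        omega
    | succ n ih =>
      intro g hg
      by_cases h1 : g = 1
      · subst h1; omega
      · obtain ⟨h, h2, h3⟩ := hdesc g h1
        obtain ⟨w, hw⟩ := ih h (by omega)
        exact ⟨SimpleGraph.Walk.cons h2 w, by simp [hw]⟩
  obtain ⟨w, hw⟩ := key (N g) g rfl
  refine ⟨⟨w.reverse⟩, le_antisymm ?_ ?_⟩
  · have := SimpleGraph.dist_le w.reverse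
    simpa [len, hw] using this
  · have hr : (cay S).Reachable 1 g := ⟨w.reverse⟩
    obtain ⟨p, hp⟩ := hr.exists_walk_length_eq_dist
    have : ∀ (x y : G) (p : (cay S).Walk x y), N y ≤ N x + p.length := by
      intro x y p
      induction p with
      | nil => simp
      | cons hadj _ ih =>
        have := hstep _ _ hadj
        simp only [SimpleGraph.Walk.length_cons]
        omega
    have := this _ _ p
    rw [h0, hp] at this
    simpa [len] using this

theorem closure_eq_top_of_reachable (H : ∀ g, (cay S).Reachable 1 g) : Subgroup.closure S = ⊤ := by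
  rw [eq_top_iff]
  intro g _
  obtain ⟨w⟩ := H g
  have : ∀ (x y : G) (p : (cay S).Walk x y), x ∈ Subgroup.closure S → y ∈ Subgroup.closure S := by
    intro x y p
    induction p with
    | nil => exact fun h => h
    | @cons u v w hadj _ ih =>
      intro hx
      apply ih
      rcases hadj.2 with h | h
      · have := mul_mem hx (Subgroup.subset_closure h)
        simpa using this
      · have := mul_mem hx (inv_mem (Subgroup.subset_closure h))
        simpa using this
  exact this _ _ w (one_mem _)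

end general

section ray

variable {G : Type} [Group G] {S : Set G}

theorem inInfComp_of_ray {V : Set G} (p : ℕ → G) (hinj : Function.Injective p)
    (hV : ∀ j, p j ∈ V) (hadj : ∀ j, (cay S).Adj (p j) (p (j + 1))) : InInfComp S V (p 0) := by
  rw [inInfComp_iff]
  refine ⟨hV 0, ?_⟩
  refine (Set.infinite_range_of_injective hinj).mono ?_
  rintro _ ⟨j, rfl⟩
  induction j with
  | zero => exact Conn.refl (hV 0)
  | succ j ih => exact Conn.trans ih (Conn.of_adj (hadj j) (hV j) (hV (j + 1)))

end ray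

/-- The quotient group `ℤ²`, written multiplicatively. -/
abbrev Q : Type := Multiplicative (ℤ × ℤ)

/-- standard generators of `ℤ²` -/
def SQ : Set Q := {Multiplicative.ofAdd (1, 0), Multiplicative.ofAdd (0, 1)}

def mkq (a b : ℤ) : Q := Multiplicative.ofAdd (a, b)

theorem mkq_surj (g : Q) : ∃ a b, g = mkq a b := ⟨(Multiplicative.toAdd g).1, (Multiplicative.toAdd g).2, rfl⟩

theorem mkq_inj {a b c d : ℤ} : mkq a b = mkq c d ↔ a = c ∧ b = d := by
  unfold mkq
  rw [Multiplicative.ofAdd.injective.eq_iff, Prod.mk.injEq]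

theorem mkq_inv_mul (a b c d : ℤ) : (mkq a b)⁻¹ * mkq c d = mkq (c - a) (d - b) := by
  unfold mkq
  rw [← ofAdd_neg, ← ofAdd_add]
  congr 1
  ext <;> simp <;> ring

theorem adj_mkq {a b c d : ℤ} : (cay SQ).Adj (mkq a b) (mkq c d) ↔
    (c = a + 1 ∧ d = b) ∨ (c = a ∧ d = b + 1) ∨ (a = c + 1 ∧ b = d) ∨ (a = c ∧ b = d + 1) := by
  have h1 : ∀ x y, mkq x y ∈ SQ ↔ (x = 1 ∧ y = 0) ∨ (x = 0 ∧ y = 1) := by
    intro x y
    have e1 : (Multiplicative.ofAdd ((1 : ℤ), (0 : ℤ)) : Q) = mkq 1 0 := rfl
    have e2 : (Multiplicative.ofAdd ((0 : ℤ), (1 : ℤ)) : Q) = mkq 0 1 := rfl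
    simp only [SQ, mem_insert_iff, mem_singleton_iff, e1, e2, mkq_inj]
  change (mkq a b ≠ mkq c d ∧ _) ↔ _
  rw [mkq_inv_mul, mkq_inv_mul, h1, h1, Ne, mkq_inj]
  omega

def NQ (g : Q) : ℕ := (Multiplicative.toAdd g).1.natAbs + (Multiplicative.toAdd g).2.natAbs

theorem NQ_mkq (a b : ℤ) : NQ (mkq a b) = a.natAbs + b.natAbs := rfl

theorem len_Q (g : Q) : (cay SQ).Reachable 1 g ∧ len SQ g = NQ g := by
  apply len_eq_of
  · rfl
  · intro g h
    obtain ⟨a, b, rfl⟩ := mkq_surj g
    obtain ⟨c, d, rfl⟩ := mkq_surj h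
    rw [adj_mkq, NQ_mkq, NQ_mkq]
    omega
  · intro g hg
    obtain ⟨a, b, rfl⟩ := mkq_surj g
    have hab : ¬ (a = 0 ∧ b = 0) := by
      rintro ⟨rfl, rfl⟩
      exact hg rfl
    rcases lt_trichotomy a 0 with h | h | h
    · refine ⟨mkq (a + 1) b, ?_, ?_⟩
      · rw [adj_mkq]; omega
      · rw [NQ_mkq, NQ_mkq]; omega
    · rcases lt_trichotomy b 0 with h' | h' | h'
      · refine ⟨mkq a (b + 1), ?_, ?_⟩
        · rw [adj_mkq]; omega
        · rw [NQ_mkq, NQ_mkq]; omega
      · exact absurd ⟨h, h'⟩ hab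
      · refine ⟨mkq a (b - 1), ?_, ?_⟩
        · rw [adj_mkq]; omega
        · rw [NQ_mkq, NQ_mkq]; omega
    · refine ⟨mkq (a - 1) b, ?_, ?_⟩
      · rw [adj_mkq]; omega
      · rw [NQ_mkq, NQ_mkq]; omega

theorem inInfComp_Q (n : ℕ) (V : Set Q) (hV : ∀ g, n ≤ NQ g → g ∈ V) (g : Q) (hg : n ≤ NQ g) :
    InInfComp SQ V g := by
  obtain ⟨a, b, rfl⟩ := mkq_surj g
  rw [NQ_mkq] at hg
  rcases le_total 0 a with h | h
  · have := inInfComp_of_ray (S := SQ) (V := V) (fun j : ℕ => mkq (a + j) b) ?_ ?_ ?_
    · simpa using this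
    · intro i j hij
      have := (mkq_inj.1 hij).1
      omega
    · intro j
      apply hV
      rw [NQ_mkq]; omega
    · intro j
      rw [adj_mkq]; push_cast; omega
  · have := inInfComp_of_ray (S := SQ) (V := V) (fun j : ℕ => mkq (a - j) b) ?_ ?_ ?_
    · simpa using this
    · intro i j hij
      have := (mkq_inj.1 hij).1
      omega
    · intro j
      apply hV
      rw [NQ_mkq]; omega
    · intro j
      rw [adj_mkq]; push_cast; omega

theorem conn_step {V : Set Q} {a b c d : ℤ} (h : (c = a + 1 ∧ d = b) ∨ (c = a ∧ d = b + 1) ∨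
    (a = c + 1 ∧ b = d) ∨ (a = c ∧ b = d + 1)) (h1 : mkq a b ∈ V) (h2 : mkq c d ∈ V) :
    Conn SQ V (mkq a b) (mkq c d) :=
  Conn.of_adj (adj_mkq.2 h) h1 h2

def ann (n : ℕ) : Set Q := {g | n ≤ NQ g ∧ NQ g ≤ n + 1}

theorem mem_ann {n : ℕ} {a b : ℤ} : mkq a b ∈ ann n ↔ n ≤ a.natAbs + b.natAbs ∧
    a.natAbs + b.natAbs ≤ n + 1 := Iff.rfl

theorem ann_pp (n : ℕ) (b : ℕ) : ∀ a : ℤ, 0 ≤ a → a + b = n →
    Conn SQ (ann n) (mkq a b) (mkq n 0) := by
  induction b with
  | zero =>
    intro a ha hab
    have : a = n := by simpa using hab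
    subst this
    exact Conn.refl (mem_ann.2 (by omega))
  | succ b ih =>
    intro a ha hab
    have h1 : Conn SQ (ann n) (mkq a ((b + 1 : ℕ) : ℤ)) (mkq (a + 1) ((b + 1 : ℕ) : ℤ)) :=
      conn_step (by omega) (mem_ann.2 (by omega)) (mem_ann.2 (by omega))
    have h2 : Conn SQ (ann n) (mkq (a + 1) ((b + 1 : ℕ) : ℤ)) (mkq (a + 1) (b : ℤ)) :=
      conn_step (by omega) (mem_ann.2 (by omega)) (mem_ann.2 (by omega))
    exact (h1.trans h2).trans (ih (a + 1) (by omega) (by omega))

theorem ann_pn (n : ℕ) (b : ℕ) : ∀ a : ℤ, 0 ≤ a → a + b = n →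
    Conn SQ (ann n) (mkq a (-b)) (mkq n 0) := by
  induction b with
  | zero =>
    intro a ha hab
    have : a = n := by simpa using hab
    subst this
    exact Conn.refl (mem_ann.2 (by omega))
  | succ b ih =>
    intro a ha hab
    have h1 : Conn SQ (ann n) (mkq a (-((b + 1 : ℕ) : ℤ))) (mkq (a + 1) (-((b + 1 : ℕ) : ℤ))) :=
      conn_step (by omega) (mem_ann.2 (by omega)) (mem_ann.2 (by omega))
    have h2 : Conn SQ (ann n) (mkq (a + 1) (-((b + 1 : ℕ) : ℤ))) (mkq (a + 1) (-(b : ℤ))) :=
      conn_step (by omega) (mem_ann.2 (by omega)) (mem_ann.2 (by omega))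
    exact (h1.trans h2).trans (ih (a + 1) (by omega) (by omega))

theorem ann_np (n : ℕ) (a : ℕ) : ∀ b : ℤ, 0 ≤ b → a + b = n →
    Conn SQ (ann n) (mkq (-a) b) (mkq n 0) := by
  induction a with
  | zero =>
    intro b hb hab
    have h1 : b = n := by simpa using hab
    subst h1
    have := ann_pp n n 0 le_rfl (by simp)
    simpa using this
  | succ a ih =>
    intro b hb hab
    have h1 : Conn SQ (ann n) (mkq (-((a + 1 : ℕ) : ℤ)) b) (mkq (-((a + 1 : ℕ) : ℤ)) (b + 1)) :=
      conn_step (by omega) (mem_ann.2 (by omega)) (mem_ann.2 (by omega))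
    have h2 : Conn SQ (ann n) (mkq (-((a + 1 : ℕ) : ℤ)) (b + 1)) (mkq (-(a : ℤ)) (b + 1)) :=
      conn_step (by omega) (mem_ann.2 (by omega)) (mem_ann.2 (by omega))
    exact (h1.trans h2).trans (ih (b + 1) (by omega) (by omega))

theorem ann_nn (n : ℕ) (a : ℕ) : ∀ b : ℕ, a + b = n →
    Conn SQ (ann n) (mkq (-a) (-b)) (mkq n 0) := by
  induction a with
  | zero =>
    intro b hab
    have h1 : b = n := by simpa using hab
    subst h1
    have := ann_pn b b 0 le_rfl (by simp)
    simpa using this
  | succ a ih =>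
    intro b hab
    have h1 : Conn SQ (ann n) (mkq (-((a + 1 : ℕ) : ℤ)) (-(b : ℤ)))
        (mkq (-((a + 1 : ℕ) : ℤ)) (-((b + 1 : ℕ) : ℤ))) :=
      conn_step (by omega) (mem_ann.2 (by omega)) (mem_ann.2 (by omega))
    have h2 : Conn SQ (ann n) (mkq (-((a + 1 : ℕ) : ℤ)) (-((b + 1 : ℕ) : ℤ)))
        (mkq (-(a : ℤ)) (-((b + 1 : ℕ) : ℤ))) :=
      conn_step (by omega) (mem_ann.2 (by omega)) (mem_ann.2 (by omega))
    exact (h1.trans h2).trans (ih (b + 1) (by omega))

theorem ann_level (n : ℕ) (a b : ℤ) (h : a.natAbs + b.natAbs = n) :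
    Conn SQ (ann n) (mkq a b) (mkq n 0) := by
  rcases le_total 0 a with ha | ha <;> rcases le_total 0 b with hb | hb
  · obtain ⟨b', rfl⟩ := Int.eq_ofNat_of_zero_le hb
    exact ann_pp n b' a ha (by omega)
  · obtain ⟨b', hb'⟩ := Int.eq_ofNat_of_zero_le (neg_nonneg.2 hb)
    have : b = -(b' : ℤ) := by omega
    subst this
    exact ann_pn n b' a ha (by omega)
  · obtain ⟨a', ha'⟩ := Int.eq_ofNat_of_zero_le (neg_nonneg.2 ha)
    have : a = -(a' : ℤ) := by omega
    subst this
    exact ann_np n a' b hb (by omega)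
  · obtain ⟨a', ha'⟩ := Int.eq_ofNat_of_zero_le (neg_nonneg.2 ha)
    obtain ⟨b', hb'⟩ := Int.eq_ofNat_of_zero_le (neg_nonneg.2 hb)
    have : a = -(a' : ℤ) := by omega
    subst this
    have : b = -(b' : ℤ) := by omega
    subst this
    exact ann_nn n a' b' (by omega)

/-- Move one step towards the origin. -/
theorem step_in (g : Q) (m : ℕ) (hg : m < NQ g) : ∃ h, (cay SQ).Adj g h ∧ NQ h + 1 = NQ g := by
  obtain ⟨a, b, rfl⟩ := mkq_surj g
  rw [NQ_mkq] at hg
  rcases lt_trichotomy a 0 with h | h | h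
  · refine ⟨mkq (a + 1) b, ?_, ?_⟩
    · rw [adj_mkq]; omega
    · rw [NQ_mkq, NQ_mkq]; omega
  · rcases lt_trichotomy b 0 with h' | h' | h'
    · refine ⟨mkq a (b + 1), ?_, ?_⟩
      · rw [adj_mkq]; omega
      · rw [NQ_mkq, NQ_mkq]; omega
    · subst h; subst h'; simp at hg
    · refine ⟨mkq a (b - 1), ?_, ?_⟩
      · rw [adj_mkq]; omega
      · rw [NQ_mkq, NQ_mkq]; omega
  · refine ⟨mkq (a - 1) b, ?_, ?_⟩
    · rw [adj_mkq]; omega
    · rw [NQ_mkq, NQ_mkq]; omega

theorem ann_conn (n : ℕ) (g : Q) (hg : g ∈ ann n) : Conn SQ (ann n) g (mkq n 0) := by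
  obtain ⟨h1, h2⟩ := hg
  rcases Nat.lt_or_ge n (NQ g) with h | h
  · obtain ⟨k, hk1, hk2⟩ := step_in g n h
    obtain ⟨a, b, rfl⟩ := mkq_surj k
    have hk3 : NQ (mkq a b) = n := by omega
    have hg1 : g ∈ ann n := ⟨h1, h2⟩
    have hk4 : mkq a b ∈ ann n := ⟨by omega, by omega⟩
    exact (Conn.of_adj hk1 hg1 hk4).trans (ann_level n a b hk3)
  · obtain ⟨a, b, rfl⟩ := mkq_surj g
    exact ann_level n a b (le_antisymm h h1)

theorem outer_conn (m : ℕ) : ∀ k : ℕ, ∀ g : Q, NQ g = m + k → Conn SQ {h | m ≤ NQ h} g (mkq m 0) := by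
  intro k
  induction k with
  | zero =>
    intro g hg
    exact (ann_conn m g ⟨by omega, by omega⟩).mono (fun x hx => hx.1)
  | succ k ih =>
    intro g hg
    obtain ⟨h, h1, h2⟩ := step_in g m (by omega)
    exact (Conn.of_adj h1 (show m ≤ NQ g by omega) (show m ≤ NQ h by omega)).trans (ih h (by omega))

theorem finite_ball_Q (m : ℕ) : {g : Q | NQ g ≤ m}.Finite := by
  have : {g : Q | NQ g ≤ m} ⊆ (fun p : ℤ × ℤ => mkq p.1 p.2) ''
      (Set.Icc (-(m : ℤ)) m ×ˢ Set.Icc (-(m : ℤ)) m) := by
    intro g hg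
    obtain ⟨a, b, rfl⟩ := mkq_surj g
    have hg' : a.natAbs + b.natAbs ≤ m := hg
    refine ⟨(a, b), ⟨⟨?_, ?_⟩, ⟨?_, ?_⟩⟩, rfl⟩ <;> simp only <;> omega
  exact (((Set.finite_Icc _ _).prod (Set.finite_Icc _ _)).image _).subset this

theorem oneEnded_Q : OneEnded SQ := by
  apply oneEnded_of
  · have h : Function.Injective (fun j : ℕ => mkq j 0) := by
      intro i j hij
      have := (mkq_inj.1 hij).1
      omega
    exact (Set.infinite_range_of_injective h).mono (fun _ _ => trivial)
  · intro F hF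
    obtain ⟨m, hm⟩ := (hF.image NQ).bddAbove
    have hsub : {g : Q | m + 1 ≤ NQ g} ⊆ Fᶜ := by
      intro g hg hgF
      have := hm ⟨g, hgF, rfl⟩
      have hg' : m + 1 ≤ NQ g := hg
      omega
    refine ⟨{g | m + 1 ≤ NQ g}, hsub, ?_, ?_⟩
    · refine (finite_ball_Q m).subset ?_
      intro g hg
      have hg' : ¬ (m + 1 ≤ NQ g) := hg
      have : NQ g ≤ m := by omega
      exact this
    · intro g hg h hh
      have hg' : m + 1 ≤ NQ g := hg
      have hh' : m + 1 ≤ NQ h := hh
      have h1 := outer_conn (m + 1) (NQ g - (m + 1)) g (by omega)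
      have h2 := outer_conn (m + 1) (NQ h - (m + 1)) h (by omega)
      exact (h1.trans h2.symm).mono hsub

theorem boundedRetreatDepth_Q : BoundedRetreatDepth SQ := by
  rw [boundedRetreatDepth_iff]
  refine ⟨0, fun g => ⟨0, le_rfl, ?_⟩⟩
  apply inInfComp_Q (NQ g)
  · intro h hh
    change len SQ g ≤ len SQ h + 0
    rw [(len_Q g).2, (len_Q h).2]
    omega
  · exact le_rfl

theorem connectedSpheres_Q : ConnectedSpheres SQ := by
  rw [connectedSpheres_iff]
  refine ⟨oneEnded_Q, 1, fun n => ⟨1, le_rfl, ?_⟩⟩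
  have hs : sphere SQ n 1 = ann n := by
    ext g
    constructor
    · rintro ⟨h1, h2⟩
      have h3 : n ≤ len SQ g := (inInfComp_iff.1 h2).1
      rw [(len_Q g).2] at h1 h3
      exact ⟨h3, h1⟩
    · rintro ⟨h1, h2⟩
      refine ⟨by rw [(len_Q g).2]; exact h2, ?_⟩
      apply inInfComp_Q n _ _ _ h1
      intro h hh
      change n ≤ len SQ h
      rw [(len_Q h).2]; exact hh
  rw [hs]
  have hne : Nonempty (ann n) := ⟨⟨mkq n 0, mem_ann.2 (by simp)⟩⟩
  refine SimpleGraph.Connected.mk ?_
  rintro ⟨g, hg⟩ ⟨h, hh⟩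
  obtain ⟨_, _, h1⟩ := (ann_conn n g hg).trans (ann_conn n h hh).symm
  exact h1

/-! ### The tree of the free group -/

abbrev F : Type := FreeGroup Bool

/-- the reduced word of the inverse: its head is the (inverse of the) last letter -/
def wd (g : F) : List (Bool × Bool) := (g⁻¹).toWord

def nm (g : F) : ℕ := (wd g).length

theorem wd_inj {g h : F} (H : wd g = wd h) : g = h :=
  inv_injective (FreeGroup.toWord_injective H)

theorem wd_one : wd 1 = [] := by simp [wd]

theorem nm_one : nm 1 = 0 := by simp [nm, wd_one]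

theorem wd_red (g : F) : FreeGroup.IsReduced (wd g) := FreeGroup.isReduced_toWord

/-- the vertex with given (inverse) word -/
def vx (l : List (Bool × Bool)) : F := (FreeGroup.mk l)⁻¹

theorem wd_vx {l : List (Bool × Bool)} (hl : FreeGroup.IsReduced l) : wd (vx l) = l := by
  simp only [wd, vx, inv_inv, FreeGroup.toWord_mk]
  exact hl.reduce_eq

theorem vx_wd (g : F) : vx (wd g) = g := by
  simp [wd, vx, FreeGroup.mk_toWord]

theorem eq_one_of_wd {g : F} (h : wd g = []) : g = 1 := wd_inj (h.trans wd_one.symm)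

def par (g : F) : F := vx (wd g).tail

theorem wd_par (g : F) : wd (par g) = (wd g).tail :=
  wd_vx (List.IsChain.suffix (wd_red g) (List.tail_suffix _))

/-- `u` is an ancestor of `v` (or equal to it) -/
def Le (u v : F) : Prop := wd u <:+ wd v

theorem Le.refl (u : F) : Le u u := List.suffix_rfl
theorem Le.trans {u v w : F} (h : Le u v) (h' : Le v w) : Le u w := List.IsSuffix.trans h h'
theorem one_le (u : F) : Le 1 u := by rw [Le, wd_one]; exact List.nil_suffix

theorem Le.nm_le {u v : F} (h : Le u v) : nm u ≤ nm v := h.length_le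

theorem Le.eq_of_nm {u v : F} (h : Le u v) (h' : nm v ≤ nm u) : u = v :=
  wd_inj (h.eq_of_length_le h')

structure IsChild (c p : F) : Prop where
  ne : c ≠ 1
  par_eq : par c = p

theorem IsChild.wd_eq {c p : F} (h : IsChild c p) : ∃ x, wd c = x :: wd p := by
  have h1 := wd_par c
  rw [h.par_eq] at h1
  cases hc : wd c with
  | nil => exact absurd (eq_one_of_wd hc) h.ne
  | cons x t =>
    rw [hc] at h1
    exact ⟨x, by rw [h1]; rfl⟩

theorem isChild_of {c p : F} {x : Bool × Bool} (h : wd c = x :: wd p) : IsChild c p := by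
  constructor
  · rintro rfl
    rw [wd_one] at h
    exact absurd h (by simp)
  · apply wd_inj
    rw [wd_par, h]
    rfl

theorem IsChild.nm_eq {c p : F} (h : IsChild c p) : nm c = nm p + 1 := by
  obtain ⟨x, hx⟩ := h.wd_eq
  simp [nm, hx]

theorem IsChild.le {c p : F} (h : IsChild c p) : Le p c := by
  obtain ⟨x, hx⟩ := h.wd_eq
  rw [Le, hx]
  exact List.suffix_cons _ _

theorem isChild_par {c : F} (h : c ≠ 1) : IsChild c (par c) := ⟨h, rfl⟩

theorem IsChild.le_iff {c p : F} (h : IsChild c p) (u : F) : Le u c ↔ u = c ∨ Le u p := by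
  obtain ⟨x, hx⟩ := h.wd_eq
  constructor
  · intro h1
    have h2 : wd u <:+ x :: wd p := by rw [← hx]; exact h1
    rcases List.suffix_cons_iff.1 h2 with h3 | h3
    · exact Or.inl (wd_inj (h3.trans hx.symm))
    · exact Or.inr h3
  · rintro (rfl | h1)
    · exact Le.refl _
    · exact h1.trans h.le

theorem exists_child_le {u v : F} (h : Le u v) (hne : u ≠ v) : ∃ c, IsChild c u ∧ Le c v := by
  obtain ⟨l, hl⟩ := h
  rcases List.eq_nil_or_concat l with rfl | ⟨l', x, rfl⟩
  · exact absurd (wd_inj (by simpa using hl)) hne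
  · have hsuf : x :: wd u <:+ wd v := ⟨l', by rw [← hl]; simp⟩
    have hred : FreeGroup.IsReduced (x :: wd u) := List.IsChain.suffix (wd_red v) hsuf
    refine ⟨vx (x :: wd u), isChild_of (wd_vx hred), ?_⟩
    rw [Le, wd_vx hred]
    exact hsuf

theorem mul_of_cases (g : F) (b : Bool) :
    (wd g = (b, true) :: wd (g * FreeGroup.of b)) ∨ (wd (g * FreeGroup.of b) = (b, false) :: wd g) := by
  have h1 : wd (g * FreeGroup.of b) = FreeGroup.reduce ((b, false) :: wd g) := by
    simp only [wd, mul_inv_rev, FreeGroup.toWord_mul, FreeGroup.toWord_inv, FreeGroup.toWord_of]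
    simp [FreeGroup.invRev]
  have h2 : FreeGroup.reduce (wd g) = wd g := (wd_red g).reduce_eq
  rw [h1, FreeGroup.reduce.cons, h2]
  cases hg : wd g with
  | nil => right; rfl
  | cons x t =>
    rcases x with ⟨c, e⟩
    by_cases hc : b = c ∧ false = !e
    · left
      obtain ⟨rfl, he⟩ := hc
      have : e = true := by simpa using he.symm
      subst this
      simp
    · right
      simp only [hc, if_false]

theorem exists_child (v : F) : ∃ c, IsChild c v := by
  have key : ∃ b : Bool, (wd v).head? ≠ some (b, true) := by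
    cases hv : wd v with
    | nil => exact ⟨true, by simp⟩
    | cons x t =>
      refine ⟨!x.1, ?_⟩
      simp only [List.head?_cons, ne_eq, Option.some.injEq]
      intro h
      have := congrArg Prod.fst h
      simp at this
  obtain ⟨b, hb⟩ := key
  rcases mul_of_cases v b with h | h
  · rw [h] at hb
    simp at hb
  · exact ⟨_, isChild_of h⟩

theorem exists_ext (R : ℕ) (v : F) (hv : nm v ≤ R) : ∃ w, nm w = R ∧ Le v w := by
  obtain ⟨k, rfl⟩ := Nat.exists_eq_add_of_le hv
  clear hv
  induction k with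
  | zero => exact ⟨v, rfl, Le.refl v⟩
  | succ k ih =>
    obtain ⟨w, hw1, hw2⟩ := ih
    obtain ⟨c, hc⟩ := exists_child w
    exact ⟨c, by rw [hc.nm_eq, hw1]; rfl, hw2.trans hc.le⟩

theorem finite_ball (m : ℕ) : {v : F | nm v ≤ m}.Finite := by
  have h1 : {l : List (Bool × Bool) | l.length ≤ m}.Finite := List.finite_length_le _ m
  refine (h1.preimage (f := wd) (fun a _ b _ h => wd_inj h)).subset ?_
  intro v hv
  exact hv

/-- ancestors different from the root -/
noncomputable def anc (v : F) : Finset F :=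
  by classical exact ((finite_ball (nm v)).toFinset.filter (fun u => u ≠ 1 ∧ Le u v))

theorem mem_anc {u v : F} : u ∈ anc v ↔ u ≠ 1 ∧ Le u v := by
  classical
  unfold anc
  rw [Finset.mem_filter, Set.Finite.mem_toFinset]
  constructor
  · exact fun h => h.2
  · exact fun h => ⟨h.2.nm_le, h⟩

theorem anc_one : anc 1 = ∅ := by
  ext u
  rw [mem_anc]
  constructor
  · rintro ⟨h1, h2⟩
    have := h2.nm_le
    rw [nm_one] at this
    exact absurd (h2.eq_of_nm (by rw [nm_one]; exact Nat.zero_le _)) h1
  · intro h; simp at h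

theorem self_mem_anc {v : F} (h : v ≠ 1) : v ∈ anc v := mem_anc.2 ⟨h, Le.refl v⟩

theorem mem_anc_child {c p : F} (h : IsChild c p) (u : F) : u ∈ anc c ↔ u = c ∨ u ∈ anc p := by
  rw [mem_anc, mem_anc, h.le_iff]
  constructor
  · rintro ⟨h1, h2 | h2⟩
    · exact Or.inl h2
    · exact Or.inr ⟨h1, h2⟩
  · rintro (rfl | ⟨h1, h2⟩)
    · exact ⟨h.ne, Or.inl rfl⟩
    · exact ⟨h1, Or.inr h2⟩

theorem child_not_mem_anc {c p : F} (h : IsChild c p) : c ∉ anc p := by
  intro h1
  have := (mem_anc.1 h1).2.nm_le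
  rw [h.nm_eq] at this
  omega

theorem card_anc (k : ℕ) : ∀ v : F, nm v = k → (anc v).card = k := by
  classical
  induction k with
  | zero =>
    intro v hv
    have : v = 1 := eq_one_of_wd (List.length_eq_zero_iff.1 hv)
    rw [this, anc_one, Finset.card_empty]
  | succ k ih =>
    intro v hv
    have hne : v ≠ 1 := by
      rintro rfl
      rw [nm_one] at hv
      omega
    have hc := isChild_par hne
    have h1 : anc v = insert v (anc (par v)) := by
      ext u
      rw [mem_anc_child hc, Finset.mem_insert]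
    rw [h1, Finset.card_insert_of_notMem (child_not_mem_anc hc), ih]
    have := hc.nm_eq
    omega

/-! ### The group -/

/-- Edges of the Cayley tree of the free group: `(u, b)` is the edge from `u` to `u * of b`. -/
abbrev E : Type := F × Bool

/-- The translate of a finite set of edges. -/
def sh (γ : F) (B : Finset E) : Finset E := B.image (fun e => (γ * e.1, e.2))

theorem mem_sh {γ : F} {B : Finset E} {e : E} : e ∈ sh γ B ↔ (γ⁻¹ * e.1, e.2) ∈ B := by
  unfold sh
  rw [Finset.mem_image]
  constructor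
  · rintro ⟨a, ha, rfl⟩
    simpa using ha
  · intro h
    exact ⟨_, h, by simp⟩

/-- The lamplighter group over the Cayley tree of the free group of rank two with a two-state lamp
on each edge: an element consists of the finite set `A` of lit edges and the position `γ`. -/
@[ext] structure LG : Type where
  A : Finset E
  γ : F

namespace LG

instance : Mul LG := ⟨fun g h => ⟨symmDiff g.A (sh g.γ h.A), g.γ * h.γ⟩⟩
instance : One LG := ⟨⟨∅, 1⟩⟩
instance : Inv LG := ⟨fun g => ⟨sh g.γ⁻¹ g.A, g.γ⁻¹⟩⟩

theorem mul_A (g h : LG) : (g * h).A = symmDiff g.A (sh g.γ h.A) := rfl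
theorem mul_γ (g h : LG) : (g * h).γ = g.γ * h.γ := rfl
theorem one_A : (1 : LG).A = ∅ := rfl
theorem one_γ : (1 : LG).γ = 1 := rfl
theorem inv_A (g : LG) : (g⁻¹).A = sh g.γ⁻¹ g.A := rfl
theorem inv_γ (g : LG) : (g⁻¹).γ = g.γ⁻¹ := rfl

instance : Group LG :=
  Group.ofLeftAxioms
    (by
      intro a b c
      ext e
      · simp only [mul_A, mul_γ, Finset.mem_symmDiff, mem_sh, mul_inv_rev, mul_assoc]
        tauto
      · simp [mul_γ, mul_assoc])
    (by
      intro a
      ext e
      · simp [mul_A, one_A, one_γ, Finset.mem_symmDiff, mem_sh]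
      · simp [mul_γ, one_γ])
    (by
      intro a
      ext e
      · simp [mul_A, inv_A, inv_γ, one_A]
      · simp [mul_γ, inv_γ, one_γ])

end LG

/-- The generators: cross the edge labelled `b` from the current position, toggling its lamp if
and only if `t` holds. -/
def gen (b t : Bool) : LG := ⟨if t then {(1, b)} else ∅, FreeGroup.of b⟩

/-- The generating set, with four elements. -/
def SG : Set LG := {g | ∃ b t, g = gen b t}

theorem finite_SG : SG.Finite := by
  have : SG = (fun p : Bool × Bool => gen p.1 p.2) '' Set.univ := by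
    ext g
    constructor
    · rintro ⟨b, t, rfl⟩
      exact ⟨(b, t), trivial, rfl⟩
    · rintro ⟨⟨b, t⟩, -, rfl⟩
      exact ⟨b, t, rfl⟩
  rw [this]
  exact Set.finite_univ.image _

theorem mul_gen (g : LG) (b t : Bool) :
    g * gen b t = ⟨symmDiff g.A (if t then {(g.γ, b)} else ∅), g.γ * FreeGroup.of b⟩ := by
  ext e
  · simp only [LG.mul_A, gen, Finset.mem_symmDiff, mem_sh]
    cases t
    · simp
    · simp only [if_true, Finset.mem_singleton, Prod.ext_iff]
      have : g.γ⁻¹ * e.1 = 1 ↔ e.1 = g.γ := by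
        rw [inv_mul_eq_one]; exact eq_comm
      rw [this]
  · rfl

/-- the endpoint of an edge which is further from the root -/
noncomputable def ch (e : E) : F :=
  by classical exact if (wd e.1).head? = some (e.2, true) then e.1 else e.1 * FreeGroup.of e.2

theorem ch_cases (u : F) (b : Bool) :
    (ch (u, b) = u ∧ wd u = (b, true) :: wd (u * FreeGroup.of b)) ∨
    (ch (u, b) = u * FreeGroup.of b ∧ wd (u * FreeGroup.of b) = (b, false) :: wd u) := by
  rcases mul_of_cases u b with h | h
  · left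
    refine ⟨?_, h⟩
    have : (wd u).head? = some (b, true) := by rw [h]; rfl
    simp [ch, this]
  · right
    refine ⟨?_, h⟩
    have h2 : (wd u).head? ≠ some (b, true) := by
      intro h3
      have hr := wd_red (u * FreeGroup.of b)
      rw [h] at hr
      cases hu : wd u with
      | nil => rw [hu] at h3; simp at h3
      | cons x t =>
        rw [hu] at h3 hr
        simp only [List.head?_cons, Option.some.injEq] at h3
        subst h3
        have := (FreeGroup.isReduced_cons_cons.1 hr).1 rfl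
        simp at this
    simp [ch, h2]

theorem ch_inj {e f : E} (h : ch e = ch f) : e = f := by
  obtain ⟨u, b⟩ := e
  obtain ⟨v, c⟩ := f
  rcases ch_cases u b with ⟨h1, h2⟩ | ⟨h1, h2⟩ <;> rcases ch_cases v c with ⟨h3, h4⟩ | ⟨h3, h4⟩
  · rw [h1, h3] at h
    subst h
    rw [h2] at h4
    have := (List.cons.injEq _ _ _ _ ▸ h4).1
    simp at this
    rw [this]
  · rw [h1, h3] at h
    rw [h, h4] at h2
    have := (List.cons.injEq _ _ _ _ ▸ h2).1
    simp at this
  · rw [h1, h3] at h
    rw [h, h4] at h2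
    have := (List.cons.injEq _ _ _ _ ▸ h2).1
    simp at this
  · rw [h1, h3] at h
    rw [h, h4] at h2
    have h5 := List.cons.injEq _ _ _ _ ▸ h2
    have h6 : c = b := by have := h5.1; simpa using this
    have h7 : v = u := wd_inj h5.2
    rw [h6, h7]

theorem ch_ne_one (e : E) : ch e ≠ 1 := by
  obtain ⟨u, b⟩ := e
  intro h
  rcases ch_cases u b with ⟨h1, h2⟩ | ⟨h1, h2⟩
  · rw [h1] at h
    rw [h, wd_one] at h2
    simp at h2
  · rw [h1] at h
    rw [h, wd_one] at h2
    simp at h2

theorem ch_surj {v : F} (hv : v ≠ 1) : ∃ e, ch e = v := by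
  cases hw : wd v with
  | nil => exact absurd (eq_one_of_wd hw) hv
  | cons x t =>
    obtain ⟨b, ε⟩ := x
    have hpar : wd (par v) = t := by rw [wd_par, hw]; rfl
    cases ε with
    | true =>
      refine ⟨(v, b), ?_⟩
      rcases ch_cases v b with ⟨h1, h2⟩ | ⟨h1, h2⟩
      · exact h1
      · exfalso
        have hr := wd_red (v * FreeGroup.of b)
        rw [h2, hw] at hr
        have := (FreeGroup.isReduced_cons_cons.1 hr).1 rfl
        simp at this
    | false =>
      refine ⟨(par v, b), ?_⟩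
      rcases ch_cases (par v) b with ⟨h1, h2⟩ | ⟨h1, h2⟩
      · exfalso
        have hr := wd_red v
        rw [hw, ← hpar, h2] at hr
        have := (FreeGroup.isReduced_cons_cons.1 hr).1 rfl
        simp at this
      · rw [h1]
        apply wd_inj
        rw [h2, hw, hpar]

/-- the set of lit edges, each represented by its further endpoint -/
noncomputable def lit (g : LG) : Finset F := by classical exact g.A.image ch

theorem mem_lit {g : LG} {v : F} : v ∈ lit g ↔ ∃ e ∈ g.A, ch e = v := by
  classical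
  unfold lit
  rw [Finset.mem_image]

theorem mem_lit_ch {g : LG} {e : E} : ch e ∈ lit g ↔ e ∈ g.A := by
  rw [mem_lit]
  constructor
  · rintro ⟨f, hf, h⟩
    rw [← ch_inj h]; exact hf
  · intro h
    exact ⟨e, h, rfl⟩

theorem one_not_mem_lit (g : LG) : (1 : F) ∉ lit g := by
  rw [mem_lit]
  rintro ⟨e, _, h⟩
  exact ch_ne_one e h

theorem ext_lit {g h : LG} (h1 : ∀ v, v ∈ lit g ↔ v ∈ lit h) (h2 : g.γ = h.γ) : g = h := by
  ext e
  · rw [← mem_lit_ch, ← mem_lit_ch, h1]
  · rw [h2]

/-- element with prescribed lit edges and position -/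
noncomputable def st (B : Finset F) (γ : F) : LG :=
  ⟨by classical exact (B.biUnion (fun v => if h : v ≠ 1 then {(ch_surj h).choose} else ∅)), γ⟩

theorem st_γ (B : Finset F) (γ : F) : (st B γ).γ = γ := rfl

theorem mem_lit_st {B : Finset F} {γ v : F} : v ∈ lit (st B γ) ↔ v ≠ 1 ∧ v ∈ B := by
  classical
  rw [mem_lit]
  unfold st
  constructor
  · rintro ⟨e, he, rfl⟩
    refine ⟨ch_ne_one e, ?_⟩
    obtain ⟨v, hv, hv2⟩ := Finset.mem_biUnion.1 he
    split_ifs at hv2 with h
    · rw [Finset.mem_singleton] at hv2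
      rw [hv2, (ch_surj h).choose_spec]
      exact hv
    · simp at hv2
  · rintro ⟨h1, h2⟩
    refine ⟨(ch_surj h1).choose, ?_, (ch_surj h1).choose_spec⟩
    refine Finset.mem_biUnion.2 ⟨v, h2, ?_⟩
    rw [dif_pos h1]
    exact Finset.mem_singleton_self _

/-- `h` is obtained from `g` by moving to a child, possibly toggling the edge crossed. -/
structure Down (g h : LG) : Prop where
  child : IsChild h.γ g.γ
  agree : ∀ v, v ≠ h.γ → (v ∈ lit h ↔ v ∈ lit g)

theorem down_or (g : LG) (b t : Bool) : Down g (g * gen b t) ∨ Down (g * gen b t) g := by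
  classical
  have hlit : ∀ v, v ≠ ch (g.γ, b) → (v ∈ lit (g * gen b t) ↔ v ∈ lit g) := by
    intro v hv
    rw [mem_lit, mem_lit, mul_gen]
    constructor
    · rintro ⟨e, he, rfl⟩
      refine ⟨e, ?_, rfl⟩
      simp only [Finset.mem_symmDiff] at he
      rcases he with ⟨h1, _⟩ | ⟨h1, _⟩
      · exact h1
      · exfalso
        cases t
        · simp at h1
        · simp only [if_true, Finset.mem_singleton] at h1
          exact hv (by rw [h1])
    · rintro ⟨e, he, rfl⟩
      refine ⟨e, ?_, rfl⟩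
      simp only [Finset.mem_symmDiff]
      left
      refine ⟨he, ?_⟩
      cases t
      · simp
      · simp only [if_true, Finset.mem_singleton]
        rintro rfl
        exact hv rfl
  have hγ : (g * gen b t).γ = g.γ * FreeGroup.of b := rfl
  rcases ch_cases g.γ b with ⟨h1, h2⟩ | ⟨h1, h2⟩
  · right
    refine ⟨?_, ?_⟩
    · rw [hγ]; exact isChild_of h2
    · intro v hv
      exact (hlit v (by rw [h1]; exact hv)).symm
  · left
    refine ⟨?_, ?_⟩
    · rw [hγ]; exact isChild_of h2
    · intro v hv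
      exact hlit v (by rw [h1]; exact hv)

theorem down_exists {g h : LG} (H : Down g h) : (∃ b t, h = g * gen b t) ∨ (∃ b t, g = h * gen b t) := by
  classical
  obtain ⟨⟨u, b⟩, he⟩ := ch_surj H.child.ne
  have hA : ∀ f : E, f ≠ (u, b) → (f ∈ h.A ↔ f ∈ g.A) := by
    intro f hf
    rw [← mem_lit_ch, ← mem_lit_ch]
    apply H.agree
    rw [← he]
    intro h1
    exact hf (ch_inj h1)
  rcases ch_cases u b with ⟨h1, h2⟩ | ⟨h1, h2⟩
  · -- `u = h.γ`, `u * of b = g.γ`
    right
    rw [h1] at he
    have hg : u * FreeGroup.of b = g.γ := by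
      have h3 := (isChild_of h2).par_eq
      rw [he, H.child.par_eq] at h3
      rw [he]; exact h3.symm
    subst he
    by_cases h3 : ((h.γ, b) ∈ h.A ↔ (h.γ, b) ∈ g.A)
    · refine ⟨b, false, ?_⟩
      rw [mul_gen]
      ext f
      · simp only [Bool.false_eq_true, if_false, Finset.mem_symmDiff]
        by_cases hf : f = (h.γ, b)
        · subst hf; simp [h3]
        · simp [hA f hf]
      · simp [hg]
    · refine ⟨b, true, ?_⟩
      rw [mul_gen]
      ext f
      · simp only [if_true, Finset.mem_symmDiff, Finset.mem_singleton]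
        by_cases hf : f = (h.γ, b)
        · subst hf; tauto
        · have := hA f hf; tauto
      · simp [hg]
  · -- `u * of b = h.γ`, `u = g.γ`
    left
    rw [h1] at he
    have hg : u = g.γ := by
      have h3 := (isChild_of h2).par_eq
      rw [he, H.child.par_eq] at h3
      exact h3.symm
    subst hg
    by_cases h3 : ((g.γ, b) ∈ h.A ↔ (g.γ, b) ∈ g.A)
    · refine ⟨b, false, ?_⟩
      rw [mul_gen]
      ext f
      · simp only [Bool.false_eq_true, if_false, Finset.mem_symmDiff]
        by_cases hf : f = (g.γ, b)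
        · subst hf; simp [h3]
        · simp [hA f hf]
      · simp [he]
    · refine ⟨b, true, ?_⟩
      rw [mul_gen]
      ext f
      · simp only [if_true, Finset.mem_symmDiff, Finset.mem_singleton]
        by_cases hf : f = (g.γ, b)
        · subst hf; tauto
        · have := hA f hf; tauto
      · simp [he]

theorem adj_iff {g h : LG} : (cay SG).Adj g h ↔ Down g h ∨ Down h g := by
  have key : ∀ {g h : LG}, g⁻¹ * h ∈ SG ↔ ∃ b t, h = g * gen b t := by
    intro g h
    constructor
    · rintro ⟨b, t, hbt⟩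
      exact ⟨b, t, by rw [← hbt]; simp⟩
    · rintro ⟨b, t, rfl⟩
      exact ⟨b, t, by simp⟩
  change (g ≠ h ∧ _) ↔ _
  rw [key, key]
  constructor
  · rintro ⟨_, ⟨b, t, rfl⟩ | ⟨b, t, rfl⟩⟩
    · exact down_or g b t
    · exact (down_or h b t).symm
  · have hne : ∀ {g h : LG}, Down g h → g ≠ h := by
      rintro g h H rfl
      have := H.child.nm_eq
      omega
    rintro (H | H)
    · exact ⟨hne H, down_exists H⟩
    · exact ⟨(hne H).symm, (down_exists H).symm⟩

/-- the edges (represented by their further endpoints) of the subtree spanned by the root, the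
position and the lit edges -/
noncomputable def T (g : LG) : Finset F := by classical exact anc g.γ ∪ (lit g).biUnion anc

theorem mem_T {g : LG} {v : F} : v ∈ T g ↔ v ∈ anc g.γ ∨ ∃ a ∈ lit g, v ∈ anc a := by
  classical
  unfold T
  rw [Finset.mem_union, Finset.mem_biUnion]

theorem Down.mem_T {g h : LG} (H : Down g h) (v : F) : v ∈ T h ↔ v = h.γ ∨ v ∈ T g := by
  rw [TreeLamplighter.mem_T, TreeLamplighter.mem_T, mem_anc_child H.child]
  constructor
  · rintro ((h1 | h1) | ⟨a, h1, h2⟩)
    · exact Or.inl h1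
    · exact Or.inr (Or.inl h1)
    · by_cases ha : a = h.γ
      · subst ha
        rcases (mem_anc_child H.child v).1 h2 with h3 | h3
        · exact Or.inl h3
        · exact Or.inr (Or.inl h3)
      · exact Or.inr (Or.inr ⟨a, (H.agree a ha).1 h1, h2⟩)
  · rintro (h1 | h1 | ⟨a, h1, h2⟩)
    · exact Or.inl (Or.inl h1)
    · exact Or.inl (Or.inr h1)
    · by_cases ha : a = h.γ
      · subst ha
        exact Or.inl ((mem_anc_child H.child v).1 h2)
      · exact Or.inr ⟨a, (H.agree a ha).2 h1, h2⟩

theorem Down.T_eq {g h : LG} (H : Down g h) (hT : h.γ ∈ T g) : T h = T g := by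
  ext v
  rw [H.mem_T]
  constructor
  · rintro (rfl | h1)
    · exact hT
    · exact h1
  · exact Or.inr

theorem Down.card_T {g h : LG} (H : Down g h) (hT : h.γ ∉ T g) : (T h).card = (T g).card + 1 := by
  classical
  have : T h = insert h.γ (T g) := by
    ext v
    rw [H.mem_T, Finset.mem_insert]
  rw [this, Finset.card_insert_of_notMem hT]

theorem Down.card_T_le {g h : LG} (H : Down g h) : (T g).card ≤ (T h).card := by
  by_cases hT : h.γ ∈ T g
  · rw [H.T_eq hT]
  · rw [H.card_T hT]; omega

theorem anc_subset_T (g : LG) : anc g.γ ⊆ T g := fun _ hv => mem_T.2 (Or.inl hv)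

theorem nm_le_card_T (g : LG) : nm g.γ ≤ (T g).card := by
  rw [← card_anc _ g.γ rfl]
  exact Finset.card_le_card (anc_subset_T g)

/-- the word length -/
noncomputable def N (g : LG) : ℕ := 2 * (T g).card - nm g.γ

theorem N_add (g : LG) : N g + nm g.γ = 2 * (T g).card := by
  have := nm_le_card_T g
  unfold N
  omega

theorem Down.N_mem {g h : LG} (H : Down g h) (hT : h.γ ∈ T g) : N h + 1 = N g := by
  have h1 := N_add g
  have h2 := N_add h
  rw [H.T_eq hT] at h2
  have h3 := H.child.nm_eq
  omega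

theorem Down.N_not_mem {g h : LG} (H : Down g h) (hT : h.γ ∉ T g) : N h = N g + 1 := by
  have h1 := N_add g
  have h2 := N_add h
  rw [H.card_T hT] at h2
  have h3 := H.child.nm_eq
  omega

theorem T_of_lit_empty {g : LG} (h : ∀ v, v ∉ lit g) : T g = anc g.γ := by
  ext v
  rw [mem_T]
  constructor
  · rintro (h1 | ⟨a, h1, _⟩)
    · exact h1
    · exact absurd h1 (h a)
  · exact Or.inl

theorem lit_one (v : F) : v ∉ lit (1 : LG) := by
  rw [mem_lit]
  rintro ⟨e, he, _⟩
  simp [LG.one_A] at he

theorem N_one : N 1 = 0 := by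
  have h1 := N_add 1
  rw [T_of_lit_empty lit_one, LG.one_γ, anc_one, Finset.card_empty] at h1
  omega

/-- changing only the lamp status: a state below `g` at the child `c` with the same lamps -/
theorem down_st (g : LG) {c : F} (hc : IsChild c g.γ) : Down g (st (lit g) c) := by
  refine ⟨hc, ?_⟩
  intro v _
  rw [mem_lit_st]
  constructor
  · exact fun h => h.2
  · intro h
    refine ⟨?_, h⟩
    rintro rfl
    exact one_not_mem_lit g h

theorem N_desc (g : LG) (hg : g ≠ 1) : ∃ h, (cay SG).Adj g h ∧ N h + 1 = N g := by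
  classical
  by_cases hex : ∃ c, IsChild c g.γ ∧ c ∈ T g
  · obtain ⟨c, hc, hcT⟩ := hex
    have H := down_st g hc
    exact ⟨_, adj_iff.2 (Or.inl H), H.N_mem hcT⟩
  · push Not at hex
    -- no lit edge strictly beyond `g.γ`
    have hno : ∀ a ∈ lit g, a ≠ g.γ → ¬ Le g.γ a := by
      intro a ha hne hle
      obtain ⟨c, hc1, hc2⟩ := exists_child_le hle (Ne.symm hne)
      exact hex c hc1 (mem_T.2 (Or.inr ⟨a, ha, mem_anc.2 ⟨hc1.ne, hc2⟩⟩))
    have hγ : g.γ ≠ 1 := by
      intro h1
      apply hg
      apply ext_lit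
      · intro v
        constructor
        · intro hv
          exfalso
          have hv1 : v ≠ 1 := by
            rintro rfl
            exact one_not_mem_lit g hv
          refine hno v hv ?_ ?_
          · rw [h1]; exact hv1
          · rw [h1]; exact one_le v
        · intro hv
          exact absurd hv (lit_one v)
      · exact h1
    have hc := isChild_par hγ
    let h : LG := st ((lit g).erase g.γ) (par g.γ)
    have H : Down h g := by
      refine ⟨hc, ?_⟩
      intro v hv
      rw [mem_lit_st, Finset.mem_erase]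
      constructor
      · intro hv2
        refine ⟨?_, hv, hv2⟩
        rintro rfl
        exact one_not_mem_lit g hv2
      · exact fun h => h.2.2
    refine ⟨h, adj_iff.2 (Or.inr H), ?_⟩
    have hnot : g.γ ∉ T h := by
      intro h1
      rcases mem_T.1 h1 with h2 | ⟨a, h2, h3⟩
      · exact child_not_mem_anc hc h2
      · rw [mem_lit_st, Finset.mem_erase] at h2
        exact hno a h2.2.2 h2.2.1 (mem_anc.1 h3).2
    have := H.N_not_mem hnot
    omega

theorem N_step (g h : LG) (H : (cay SG).Adj g h) : N h ≤ N g + 1 := by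
  rcases adj_iff.1 H with H | H
  · by_cases hT : h.γ ∈ T g
    · have := H.N_mem hT; omega
    · have := H.N_not_mem hT; omega
  · by_cases hT : g.γ ∈ T h
    · have := H.N_mem hT; omega
    · have := H.N_not_mem hT; omega

theorem len_G (g : LG) : (cay SG).Reachable 1 g ∧ len SG g = N g :=
  len_eq_of N N_one N_step N_desc g

/-! ### Rays -/

/-- A state all of whose spanned tree lies at depth at most that of the position lies on a ray
along which the length grows. -/
theorem ray_up (g : LG) (hg : ∀ v ∈ T g, nm v ≤ nm g.γ) (V : Set LG)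
    (hV : ∀ h, N g ≤ N h → h ∈ V) : InInfComp SG V g := by
  choose nx hnx using exists_child
  let p : ℕ → LG := fun j => Nat.rec g (fun _ x => st (lit x) (nx x.γ)) j
  have hp0 : p 0 = g := rfl
  have hps : ∀ j, p (j + 1) = st (lit (p j)) (nx (p j).γ) := fun j => rfl
  have hD : ∀ j, Down (p j) (p (j + 1)) := by
    intro j
    rw [hps]
    exact down_st (p j) (hnx _)
  have hnm : ∀ j, nm (p j).γ = nm g.γ + j := by
    intro j
    induction j with
    | zero => rfl
    | succ j ih => rw [(hD j).child.nm_eq, ih]; rfl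
  have hT : ∀ j, ∀ v ∈ T (p j), nm v ≤ nm g.γ + j := by
    intro j
    induction j with
    | zero => exact hg
    | succ j ih =>
      intro v hv
      rcases ((hD j).mem_T v).1 hv with rfl | h1
      · exact (hnm (j + 1)).le
      · have := ih v h1; omega
  have hN : ∀ j, N (p j) = N g + j := by
    intro j
    induction j with
    | zero => rfl
    | succ j ih =>
      have hnot : (p (j + 1)).γ ∉ T (p j) := by
        intro h1
        have h2 := hT j _ h1
        have h3 := hnm (j + 1)
        omega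
      rw [(hD j).N_not_mem hnot, ih]
      rfl
  have := inInfComp_of_ray (S := SG) (V := V) p ?_ ?_ ?_
  · exact this
  · intro i j hij
    have h1 := hN i
    have h2 := hN j
    rw [hij] at h1
    omega
  · intro j
    apply hV
    rw [hN]; omega
  · intro j
    exact adj_iff.2 (Or.inl (hD j))

/-! ### Unbounded retreat depth -/

/-- the ball of radius `R` without its centre -/
noncomputable def ball (R : ℕ) : Finset F := by
  classical exact (finite_ball R).toFinset.filter (fun v => v ≠ 1)

theorem mem_ball {R : ℕ} {v : F} : v ∈ ball R ↔ v ≠ 1 ∧ nm v ≤ R := by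
  classical
  unfold ball
  rw [Finset.mem_filter, Set.Finite.mem_toFinset]
  exact ⟨fun h => ⟨h.2, h.1⟩, fun h => ⟨h.2, h.1⟩⟩

theorem T_eq_ball {R : ℕ} {g : LG} (h1 : nm g.γ ≤ R) (h2 : ∀ v, v ≠ 1 → nm v = R → v ∈ lit g)
    (h3 : ∀ v ∈ lit g, nm v ≤ R) : T g = ball R := by
  ext v
  rw [mem_T, mem_ball]
  constructor
  · rintro (h4 | ⟨a, h4, h5⟩)
    · have h6 := mem_anc.1 h4
      exact ⟨h6.1, h6.2.nm_le.trans h1⟩
    · have h6 := mem_anc.1 h5
      exact ⟨h6.1, h6.2.nm_le.trans (h3 a h4)⟩
  · rintro ⟨h4, h5⟩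
    obtain ⟨w, hw1, hw2⟩ := exists_ext R v h5
    right
    refine ⟨w, h2 w ?_ hw1, mem_anc.2 ⟨h4, hw2⟩⟩
    rintro rfl
    have := hw2.nm_le
    rw [nm_one] at this
    exact h4 (hw2.eq_of_nm (by rw [nm_one]; exact Nat.zero_le _))

theorem finite_LG (R : ℕ) : {g : LG | nm g.γ ≤ R ∧ ∀ v ∈ lit g, nm v ≤ R}.Finite := by
  classical
  let f : LG → Finset F × F := fun g => (lit g, g.γ)
  have hf : Function.Injective f := by
    intro g h hgh
    have h1 := (Prod.mk.injEq _ _ _ _ ▸ hgh).1
    have h2 := (Prod.mk.injEq _ _ _ _ ▸ hgh).2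
    exact ext_lit (fun v => by rw [h1]) h2
  have hfin : ((((finite_ball R).toFinset).powerset : Set (Finset F)) ×ˢ {v : F | nm v ≤ R}).Finite :=
    (Finset.finite_toSet _).prod (finite_ball R)
  refine (hfin.preimage (f := f) hf.injOn).subset ?_
  rintro g ⟨h1, h2⟩
  refine ⟨?_, h1⟩
  rw [Finset.mem_coe, Finset.mem_powerset]
  intro v hv
  rw [Set.Finite.mem_toFinset]
  exact h2 v hv

theorem not_bounded_G : ¬ BoundedRetreatDepth SG := by
  classical
  rw [boundedRetreatDepth_iff]
  rintro ⟨D, hD⟩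
  let R := D + 1
  let g : LG := st (ball R) 1
  obtain ⟨d, hdD, hinf⟩ := hD g
  rw [inInfComp_iff] at hinf
  have hgT : T g = ball R := by
    apply T_eq_ball
    · rw [st_γ, nm_one]; exact Nat.zero_le _
    · intro v hv1 hv2
      rw [mem_lit_st]
      exact ⟨hv1, mem_ball.2 ⟨hv1, hv2.le⟩⟩
    · intro v hv
      exact (mem_ball.1 (mem_lit_st.1 hv).2).2
  have hgN : N g = 2 * (ball R).card := by
    have h1 := N_add g
    rw [hgT, st_γ, nm_one] at h1
    omega
  let P : LG → Prop := fun h => nm h.γ < R ∧ (∀ v, v ≠ 1 → nm v = R → v ∈ lit h) ∧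
    ∀ v ∈ lit h, nm v ≤ R
  have hPg : P g := by
    refine ⟨?_, ?_, ?_⟩
    · change nm 1 < R
      rw [nm_one]; omega
    · intro v hv1 hv2
      rw [mem_lit_st]
      exact ⟨hv1, mem_ball.2 ⟨hv1, hv2.le⟩⟩
    · intro v hv
      exact (mem_ball.1 (mem_lit_st.1 hv).2).2
  have hstep : ∀ a b, (cay SG).Adj a b → a ∈ {h | len SG g ≤ len SG h + d} →
      b ∈ {h | len SG g ≤ len SG h + d} → P a → P b := by
    rintro a b hab _ hb ⟨h1, h2, h3⟩
    have hb' : len SG g ≤ len SG b + d := hb
    rw [(len_G g).2, (len_G b).2, hgN] at hb'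
    rcases adj_iff.1 hab with H | H
    · have hnb : nm b.γ ≤ R := by rw [H.child.nm_eq]; omega
      have hTa : T a = ball R := T_eq_ball h1.le h2 h3
      have hbT : b.γ ∈ T a := by
        rw [hTa, mem_ball]; exact ⟨H.child.ne, hnb⟩
      have hTb : T b = ball R := by rw [H.T_eq hbT, hTa]
      have h4 := N_add b
      rw [hTb] at h4
      have hlt : nm b.γ < R := by omega
      refine ⟨hlt, ?_, ?_⟩
      · intro v hv1 hv2
        refine (H.agree v ?_).2 (h2 v hv1 hv2)
        rintro rfl
        omega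
      · intro v hv
        by_cases hvb : v = b.γ
        · rw [hvb]; exact hnb
        · exact h3 v ((H.agree v hvb).1 hv)
    · have hna : nm b.γ < R := by have := H.child.nm_eq; omega
      refine ⟨hna, ?_, ?_⟩
      · intro v hv1 hv2
        refine (H.agree v ?_).1 (h2 v hv1 hv2)
        rintro rfl
        omega
      · intro v hv
        by_cases hva : v = a.γ
        · rw [hva]; exact h1.le
        · exact h3 v ((H.agree v hva).2 hv)
  apply hinf.2
  refine (finite_LG R).subset ?_
  intro h hh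
  have hP : P h := Conn.induct hstep hh hPg
  exact ⟨hP.1.le, hP.2.2⟩

/-! ### One end -/

def U (m : ℕ) : Set LG := {g | m < (T g).card}

theorem T_mono {g h : LG} (h1 : anc g.γ ⊆ T h) (h2 : ∀ v ∈ lit g, v ∈ lit h) : T g ⊆ T h := by
  intro v hv
  rcases mem_T.1 hv with h3 | ⟨a, h3, h4⟩
  · exact h1 h3
  · exact mem_T.2 (Or.inr ⟨a, h2 a h3, h4⟩)

/-- Walking away from the root without changing lamps. -/
theorem walk (m : ℕ) (B : Finset F) (hB : st B 1 ∈ U m) (k : ℕ) : ∀ w : F, nm w = k →
    Conn SG (U m) (st B 1) (st B w) := by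
  induction k with
  | zero =>
    intro w hw
    have : w = 1 := eq_one_of_wd (List.length_eq_zero_iff.1 hw)
    rw [this]
    exact Conn.refl hB
  | succ k ih =>
    intro w hw
    have hne : w ≠ 1 := by
      rintro rfl
      rw [nm_one] at hw
      omega
    have hc := isChild_par hne
    have h1 := ih (par w) (by have := hc.nm_eq; omega)
    have H : Down (st B (par w)) (st B w) := by
      refine ⟨hc, ?_⟩
      intro v _
      rw [mem_lit_st, mem_lit_st]
    refine h1.trans (Conn.of_adj (adj_iff.2 (Or.inl H)) h1.right ?_)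
    exact lt_of_lt_of_le h1.right H.card_T_le

/-- Toggling a lamp: from the root go to the edge, toggle it, and come back. -/
theorem toggle (m : ℕ) (B C : Finset F) (v : F) (hB : st B 1 ∈ U m) (hC : st C 1 ∈ U m)
    (hBC : ∀ u, u ≠ v → (u ∈ B ↔ u ∈ C)) (hv : v ≠ 1) :
    Conn SG (U m) (st B 1) (st C 1) := by
  have h1 := walk m B hB _ (par v) rfl
  have h2 := walk m C hC _ v rfl
  have H : Down (st B (par v)) (st C v) := by
    refine ⟨isChild_par hv, ?_⟩
    intro u hu
    rw [mem_lit_st, mem_lit_st, hBC u hu]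
  exact (h1.trans (Conn.of_adj (adj_iff.2 (Or.inl H)) h1.right h2.right)).trans h2.symm

theorem st_mem_U_mono {m : ℕ} {B C : Finset F} (hBC : B ⊆ C) (hB : st B 1 ∈ U m) :
    st C 1 ∈ U m := by
  have : T (st B 1) ⊆ T (st C 1) := by
    apply T_mono
    · exact anc_subset_T (st C 1)
    · intro v hv
      rw [mem_lit_st] at hv ⊢
      exact ⟨hv.1, hBC hv.2⟩
  exact lt_of_lt_of_le hB (Finset.card_le_card this)

theorem conn_union (m : ℕ) (B : Finset F) (hB : st B 1 ∈ U m) (C : Finset F) :
    ∃ D : Finset F, (∀ v, v ∈ D ↔ v ∈ B ∨ v ∈ C) ∧ Conn SG (U m) (st B 1) (st D 1) := by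
  classical
  induction C using Finset.induction_on with
  | empty => exact ⟨B, by simp, Conn.refl hB⟩
  | @insert a s ha ih =>
    obtain ⟨D, hD, hconn⟩ := ih
    refine ⟨insert a D, ?_, ?_⟩
    · intro v
      rw [Finset.mem_insert, Finset.mem_insert, hD]
      tauto
    · have hD2 : st (insert a D) 1 ∈ U m := st_mem_U_mono (Finset.subset_insert a D) hconn.right
      by_cases ha1 : a = 1
      · have : st (insert a D) 1 = st D 1 := by
          apply ext_lit
          · intro v
            rw [mem_lit_st, mem_lit_st, Finset.mem_insert, ha1]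
            tauto
          · rfl
        rw [this]; exact hconn
      · refine hconn.trans (toggle m D (insert a D) a hconn.right hD2 ?_ ha1)
        intro u hu
        rw [Finset.mem_insert]
        tauto

theorem conn_root (m : ℕ) (B C : Finset F) (hB : st B 1 ∈ U m) (hC : st C 1 ∈ U m) :
    Conn SG (U m) (st B 1) (st C 1) := by
  obtain ⟨D, hD, h1⟩ := conn_union m B hB C
  obtain ⟨D', hD', h2⟩ := conn_union m C hC B
  have : D = D' := by
    ext v
    rw [hD, hD']
    tauto
  subst this
  exact h1.trans h2.symm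

theorem to_root (m : ℕ) (k : ℕ) : ∀ g : LG, nm g.γ = k → g ∈ U m →
    ∃ B : Finset F, Conn SG (U m) g (st B 1) := by
  classical
  induction k with
  | zero =>
    intro g hg hgU
    have h1 : g.γ = 1 := eq_one_of_wd (List.length_eq_zero_iff.1 hg)
    have : g = st (lit g) 1 := by
      apply ext_lit
      · intro v
        rw [mem_lit_st]
        constructor
        · intro h
          refine ⟨?_, h⟩
          rintro rfl
          exact one_not_mem_lit g h
        · exact fun h => h.2
      · exact h1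
    refine ⟨lit g, ?_⟩
    rw [← this]
    exact Conn.refl hgU
  | succ k ih =>
    intro g hg hgU
    have hne : g.γ ≠ 1 := by
      intro h
      rw [h, nm_one] at hg
      omega
    have hc := isChild_par hne
    let h : LG := st (insert g.γ (lit g)) (par g.γ)
    have H : Down h g := by
      refine ⟨hc, ?_⟩
      intro v hv
      rw [mem_lit_st, Finset.mem_insert]
      constructor
      · intro h1
        refine ⟨?_, Or.inr h1⟩
        rintro rfl
        exact one_not_mem_lit g h1
      · rintro ⟨_, h1 | h1⟩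
        · exact absurd h1 hv
        · exact h1
    have hmem : g.γ ∈ T h := by
      refine mem_T.2 (Or.inr ⟨g.γ, ?_, self_mem_anc hne⟩)
      rw [mem_lit_st]
      exact ⟨hne, Finset.mem_insert_self _ _⟩
    have hhU : h ∈ U m := by
      have : m < (T g).card := hgU
      rw [H.T_eq hmem] at this
      exact this
    obtain ⟨B, hB⟩ := ih h (by
      have := hc.nm_eq
      change nm (par g.γ) = k
      omega) hhU
    exact ⟨B, (Conn.of_adj (adj_iff.2 (Or.inr H)) hgU hhU).trans hB⟩

theorem conn_U (m : ℕ) (g h : LG) (hg : g ∈ U m) (hh : h ∈ U m) : Conn SG (U m) g h := by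
  obtain ⟨B, hB⟩ := to_root m _ g rfl hg
  obtain ⟨C, hC⟩ := to_root m _ h rfl hh
  exact (hB.trans (conn_root m B C hB.right hC.right)).trans hC.symm

theorem finite_compl_U (m : ℕ) : (U m)ᶜ.Finite := by
  refine (finite_LG m).subset ?_
  intro g hg
  have hg' : (T g).card ≤ m := not_lt.1 hg
  refine ⟨(nm_le_card_T g).trans hg', ?_⟩
  intro v hv
  refine le_trans ?_ hg'
  rw [← card_anc _ v rfl]
  apply Finset.card_le_card
  intro u hu
  exact mem_T.2 (Or.inr ⟨v, hv, hu⟩)

theorem infinite_LG : (Set.univ : Set LG).Infinite := by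
  have h := ray_up 1 (by
    intro v hv
    rw [T_of_lit_empty lit_one, LG.one_γ, anc_one] at hv
    simp at hv) Set.univ (fun _ _ => trivial)
  exact (inInfComp_iff.1 h).2.mono (fun _ _ => trivial)

theorem oneEnded_G : OneEnded SG := by
  apply oneEnded_of infinite_LG
  intro Fs hF
  obtain ⟨m, hm⟩ := (hF.image (fun g => (T g).card)).bddAbove
  have hsub : U m ⊆ Fsᶜ := by
    intro g hg hgF
    have h1 : (T g).card ≤ m := hm ⟨g, hgF, rfl⟩
    have h2 : m < (T g).card := hg
    omega
  exact ⟨U m, hsub, finite_compl_U m, fun g hg h hh => (conn_U m g h hg hh).mono hsub⟩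

/-! ### Disconnected spheres -/

/-- the branch of the tree at the root containing the generator `of true` -/
def Y (v : F) : Prop := Le (FreeGroup.of true) v

theorem wd_of (b : Bool) : wd (FreeGroup.of b) = [(b, false)] := by
  simp [wd, FreeGroup.toWord_inv, FreeGroup.invRev]

theorem nm_of (b : Bool) : nm (FreeGroup.of b) = 1 := by simp [nm, wd_of]

theorem Y_child {c p : F} (h : IsChild c p) : Y c ↔ c = FreeGroup.of true ∨ Y p := by
  unfold Y
  rw [h.le_iff]
  constructor
  · rintro (h1 | h1)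
    · exact Or.inl h1.symm
    · exact Or.inr h1
  · rintro (h1 | h1)
    · exact Or.inl h1.symm
    · exact Or.inr h1

theorem not_Y_one : ¬ Y 1 := by
  intro h
  have := Le.nm_le h
  rw [nm_one, nm_of] at this
  omega

theorem not_Y_false {v : F} (h : Le (FreeGroup.of false) v) : ¬ Y v := by
  intro hY
  have h1 : wd (FreeGroup.of false) <:+ wd v := h
  have h2 : wd (FreeGroup.of true) <:+ wd v := hY
  rw [wd_of] at h1 h2
  obtain ⟨l1, h1⟩ := h1
  obtain ⟨l2, h2⟩ := h2
  rw [← h2] at h1
  have := congrArg List.getLast? h1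
  simp at this

theorem not_connectedSpheres_G : ¬ ConnectedSpheres SG := by
  classical
  rw [connectedSpheres_iff]
  rintro ⟨_, R, hR⟩
  let D := R + 1
  let n := 2 * (ball D).card - D
  obtain ⟨r, hrR, hconn⟩ := hR n
  obtain ⟨v0, hv01, hv02⟩ := exists_ext D (FreeGroup.of false) (by rw [nm_of]; omega)
  have hv0ne : v0 ≠ 1 := by
    rintro rfl
    rw [nm_one] at hv01
    omega
  have hballD : D ≤ (ball D).card := by
    have hsub : anc v0 ⊆ ball D := by
      intro u hu
      have := mem_anc.1 hu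
      exact mem_ball.2 ⟨this.1, this.2.nm_le.trans hv01.le⟩
    have := Finset.card_le_card hsub
    rwa [card_anc _ v0 hv01] at this
  -- the first point
  let x : LG := st (ball D) v0
  have hxlit : ∀ v, v ∈ lit x ↔ v ≠ 1 ∧ nm v ≤ D := by
    intro v
    rw [mem_lit_st, mem_ball]
    tauto
  have hxT : T x = ball D := by
    apply T_eq_ball
    · exact hv01.le
    · intro v h1 h2
      rw [hxlit]; exact ⟨h1, h2.le⟩
    · intro v h1
      exact ((hxlit v).1 h1).2
  have hxN : N x = n := by
    have h1 := N_add x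
    rw [hxT] at h1
    have h2 : nm x.γ = D := hv01
    omega
  have hxinf : InInfComp SG {k | n ≤ len SG k} x := by
    apply ray_up
    · intro v hv
      rw [hxT] at hv
      have h2 : nm x.γ = D := hv01
      rw [h2]
      exact (mem_ball.1 hv).2
    · intro h hh
      change n ≤ len SG h
      rw [(len_G h).2]
      omega
  have hxs : x ∈ sphere SG n r := ⟨by rw [(len_G x).2]; omega, hxinf⟩
  -- the second point
  obtain ⟨w0, hw01, hw02⟩ := exists_ext n (FreeGroup.of true) (by rw [nm_of]; omega)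
  let y : LG := st ∅ w0
  have hylit : ∀ v, v ∉ lit y := by
    intro v hv
    rw [mem_lit_st] at hv
    simp at hv
  have hyT : T y = anc w0 := T_of_lit_empty hylit
  have hyN : N y = n := by
    have h1 := N_add y
    rw [hyT, card_anc _ w0 hw01] at h1
    have h2 : nm y.γ = n := hw01
    omega
  have hyinf : InInfComp SG {k | n ≤ len SG k} y := by
    apply ray_up
    · intro v hv
      rw [hyT] at hv
      exact (mem_anc.1 hv).2.nm_le
    · intro h hh
      change n ≤ len SG h
      rw [(len_G h).2]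
      omega
  have hys : y ∈ sphere SG n r := ⟨by rw [(len_G y).2]; omega, hyinf⟩
  -- they are connected in the sphere
  have hxy : Conn SG (sphere SG n r) x y := ⟨hxs, hys, hconn.preconnected _ _⟩
  let P : LG → Prop := fun h => (∀ v, Y v → nm v = D → v ∈ lit h) ∧
    (Y h.γ → nm h.γ < D ∧ 2 * (T h).card ≤ n + r)
  have hPx : P x := by
    refine ⟨?_, ?_⟩
    · intro v h1 h2
      rw [hxlit]
      refine ⟨?_, h2.le⟩
      rintro rfl
      exact not_Y_one h1
    · intro h1
      exact absurd h1 (not_Y_false hv02)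
  have hPy : ¬ P y := by
    rintro ⟨_, h2⟩
    have h3 := (h2 hw02).1
    have h4 : nm y.γ = n := hw01
    omega
  apply hPy
  refine Conn.induct ?_ hxy hPx
  intro a b hab ha hb hPa
  obtain ⟨h1, h2⟩ := hPa
  have haN : N a ≤ n + r := by
    have := ha.1
    rwa [(len_G a).2] at this
  have hbN : n ≤ N b := by
    have h3 : n ≤ len SG b := (inInfComp_iff.1 hb.2).1
    rwa [(len_G b).2] at h3
  rcases adj_iff.1 hab with H | H
  · by_cases hY : Y b.γ
    · -- entering or moving down in the branch
      have hcases := (Y_child H.child).1 hY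
      have hlow : nm a.γ < D ∧ 2 * (T a).card ≤ n + r := by
        by_cases hYa : Y a.γ
        · exact h2 hYa
        · have hb1 : b.γ = FreeGroup.of true := by
            rcases hcases with h3 | h3
            · exact h3
            · exact absurd h3 hYa
          have h4 := H.child.nm_eq
          rw [hb1, nm_of] at h4
          have h5 := N_add a
          omega
      have hnb : nm b.γ ≤ D := by have := H.child.nm_eq; omega
      obtain ⟨w, hw1, hw2⟩ := exists_ext D b.γ hnb
      have hwY : Y w := Le.trans hY hw2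
      have hbT : b.γ ∈ T a :=
        mem_T.2 (Or.inr ⟨w, h1 w hwY hw1, mem_anc.2 ⟨H.child.ne, hw2⟩⟩)
      have hT := H.T_eq hbT
      have hNb := N_add b
      rw [hT] at hNb
      have hlt : nm b.γ < D := by omega
      refine ⟨?_, fun _ => ⟨hlt, by rw [hT]; exact hlow.2⟩⟩
      intro v hv1 hv2
      refine (H.agree v ?_).2 (h1 v hv1 hv2)
      rintro rfl
      omega
    · refine ⟨?_, fun h => absurd h hY⟩
      intro v hv1 hv2
      refine (H.agree v ?_).2 (h1 v hv1 hv2)
      rintro rfl
      exact hY hv1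
  · by_cases hY : Y b.γ
    · have hYa : Y a.γ := (Y_child H.child).2 (Or.inr hY)
      obtain ⟨h3, h4⟩ := h2 hYa
      have h5 := H.child.nm_eq
      refine ⟨?_, fun _ => ⟨by omega, (Nat.mul_le_mul_left 2 H.card_T_le).trans h4⟩⟩
      intro v hv1 hv2
      refine (H.agree v ?_).1 (h1 v hv1 hv2)
      rintro rfl
      omega
    · refine ⟨?_, fun h => absurd h hY⟩
      intro v hv1 hv2
      refine (H.agree v ?_).1 (h1 v hv1 hv2)
      rintro rfl
      have := (h2 hv1).1
      omega

/-! ### The quotient map -/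

/-- the projection to the abelianisation `ℤ²` of the free group -/
def ab : F →* Q := FreeGroup.lift (fun b => if b then Multiplicative.ofAdd (0, 1) else Multiplicative.ofAdd (1, 0))

def π : LG →* Q where
  toFun g := ab g.γ
  map_one' := by rw [LG.one_γ, map_one]
  map_mul' g h := by rw [LG.mul_γ, map_mul]

theorem π_gen (b t : Bool) : π (gen b t) = if b then Multiplicative.ofAdd (0, 1) else Multiplicative.ofAdd (1, 0) := by
  change ab (FreeGroup.of b) = _
  simp [ab]

theorem image_SG : π '' SG = SQ := by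
  ext q
  constructor
  · rintro ⟨_, ⟨b, t, rfl⟩, rfl⟩
    rw [π_gen]
    cases b
    · left; rfl
    · right; rfl
  · rintro (rfl | rfl)
    · exact ⟨gen false false, ⟨false, false, rfl⟩, by rw [π_gen]; rfl⟩
    · exact ⟨gen true false, ⟨true, false, rfl⟩, by rw [π_gen]; rfl⟩

theorem closure_SQ : Subgroup.closure SQ = ⊤ := closure_eq_top_of_reachable (fun g => (len_Q g).1)

theorem closure_SG : Subgroup.closure SG = ⊤ := closure_eq_top_of_reachable (fun g => (len_G g).1)

theorem π_surj : Function.Surjective π := by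
  rw [← MonoidHom.range_eq_top, eq_top_iff, ← closure_SQ, Subgroup.closure_le, ← image_SG]
  rintro _ ⟨g, _, rfl⟩
  exact ⟨g, rfl⟩

/-- Affirmative answer to Q1 (a), (b) and (c), by a single example. -/
theorem result : ∃ (G Q : Type) (_ : Group G) (_ : Group Q) (S : Set G) (π : G →* Q),
    S.Finite ∧ Subgroup.closure S = ⊤ ∧ Function.Surjective π ∧
    BoundedRetreatDepth (π '' S) ∧ ConnectedSpheres (π '' S) ∧
    OneEnded S ∧ ¬ BoundedRetreatDepth S ∧ ¬ ConnectedSpheres S :=
  ⟨LG, Q, inferInstance, inferInstance, SG, π, finite_SG, closure_SG, π_surj,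
    by rw [image_SG]; exact boundedRetreatDepth_Q, by rw [image_SG]; exact connectedSpheres_Q,
    oneEnded_G, not_bounded_G, not_connectedSpheres_G⟩

end Pool.Agent.Results.MP_506dae_al.TreeLamplighter
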